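import Pool.Agent.Helper37.SU.Stmts

set_option autoImplicit false

namespace Pool.Agent.Helper37.SU

open MeasureTheory Finset
open scoped ENNReal Classical

private theorem bxi_div {b : ℕ} (h1 : ST_IXB) (hb : 2 ≤ b) {p q : ℕ} (hpq : p ≤ q)
    (t : UnitAddCircle) : ix b p t = ix b q t / b ^ (q - p) := by
  have := (h1 b hb).2.1 p (q - p) t
  rwa [Nat.add_sub_cancel' hpq] at this

/-- BXI -/
theorem st_BXI (h1 : ST_IXB) : ST_BXI := by
  intro b d R s hb
  have hlt := (h1 b hb).1
  constructor
  · rintro a ⟨t₀, ht1, ht2⟩
    refine ⟨fun i => if s i ≤ R.1 i then R.2 i else a i, ?_, ?_⟩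
    · intro i
      simp only
      split_ifs with h
      · rw [max_eq_left h, ← ht1 i]
        exact hlt _ _
      · have e2 := ht2 i
        simp only at e2
        rw [max_eq_right (by omega), ← e2]
        exact hlt _ _
    · intro t
      constructor
      · rintro ⟨g1, g2⟩ i
        simp only
        split_ifs with h
        · rw [max_eq_left h]
          exact g1 i
        · rw [max_eq_right (by omega)]
          exact g2 i
      · intro g
        constructor
        · intro i
          have gi := g i
          simp only at gi
          split_ifs at gi with h
          · rwa [max_eq_left h] at gi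
          · rw [max_eq_right (by omega)] at gi
            have e1 := ht1 i
            have e2 := ht2 i
            simp only at e2
            have hle : R.1 i ≤ s i := by omega
            rw [bxi_div h1 hb hle, gi]
            rw [bxi_div h1 hb hle, e2] at e1
            exact e1
        · intro i
          have gi := g i
          simp only at gi ⊢
          split_ifs at gi with h
          · rw [max_eq_left h] at gi
            have e1 := ht1 i
            have e2 := ht2 i
            simp only at e2
            rw [bxi_div h1 hb h, gi]
            rw [bxi_div h1 hb h, e1] at e2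
            exact e2
          · rwa [max_eq_right (by omega)] at gi
  · -- counting
    have hsub : (gr b s).filter (fun a => ∃ t, inB b R t ∧ inB b (s, a) t) ⊆
        Fintype.piFinset fun i => (if s i ≤ R.1 i then
          ({R.2 i / b ^ (R.1 i - s i)} : Finset ℕ) else
          Ico (R.2 i * b ^ (s i - R.1 i)) (R.2 i * b ^ (s i - R.1 i) + b ^ (s i - R.1 i))) := by
      intro a ha
      obtain ⟨-, t, ht1, ht2⟩ := mem_filter.1 ha
      rw [Fintype.mem_piFinset]
      intro i
      have e1 := ht1 i
      have e2 := ht2 i
      simp only at e2
      split_ifs with h
      · rw [mem_singleton, ← e2, ← e1]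
        exact bxi_div h1 hb h (t i)
      · have hle : R.1 i ≤ s i := by omega
        rw [bxi_div h1 hb hle, e2] at e1
        have hpos : 0 < b ^ (s i - R.1 i) := by positivity
        rw [mem_Ico]
        rw [Nat.div_eq_iff hpos] at e1
        constructor
        · exact e1.1
        · have := e1.2
          omega
    refine (Finset.card_le_card hsub).trans ?_
    rw [Fintype.card_piFinset, ← Finset.prod_pow_eq_pow_sum]
    refine Finset.prod_le_prod' fun i _ => ?_
    split_ifs with h
    · rw [card_singleton]
      exact Nat.one_le_pow _ _ (by omega)
    · rw [Nat.card_Ico]
      omega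

end Pool.Agent.Helper37.SU
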