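import Pool.Agent.Helper37.SU.Stmts

set_option autoImplicit false

namespace Pool.Agent.Helper37.SU

open MeasureTheory Finset
open scoped ENNReal Classical

/-- number of boxes of `S` containing `t` -/
private noncomputable def momN {d : ℕ} (b : ℕ) (S : Finset (Bo d)) (t : TT d) : ℝ≥0∞ :=
  ((S.filter (fun B => inB b B t)).card : ℝ≥0∞)

private theorem momN_eq {d : ℕ} (b : ℕ) (S : Finset (Bo d)) (t : TT d) :
    momN b S t = ∑ B ∈ S, (Set.indicator {t : TT d | inB b B t} (fun _ => (1 : ℝ≥0∞)) t) := by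
  unfold momN
  rw [Finset.card_filter]
  push_cast
  refine Finset.sum_congr rfl fun B _ => ?_
  by_cases h : inB b B t <;> simp [Set.indicator, h]

private theorem momN_meas {d : ℕ} {b : ℕ} (hI : ∀ B : Bo d, MeasurableSet {t : TT d | inB b B t})
    (S : Finset (Bo d)) : Measurable (momN b S) := by
  have : momN b S = fun t => ∑ B ∈ S,
      (Set.indicator {t : TT d | inB b B t} (fun _ => (1 : ℝ≥0∞)) t) := by
    funext t; exact momN_eq b S t
  rw [this]
  refine Finset.measurable_sum _ fun B _ => ?_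
  exact measurable_const.indicator (hI B)

private theorem mom_step {d : ℕ} {b : ℕ} (hI : ∀ B : Bo d, MeasurableSet {t : TT d | inB b B t})
    (S : Finset (Bo d)) (A : Set (TT d)) (Q : ℕ) :
    ∫⁻ t in A, momN b S t ^ (Q + 1) ∂haar d =
      ∑ B ∈ S, ∫⁻ t in {t : TT d | inB b B t} ∩ A, momN b S t ^ Q ∂haar d := by
  have h1 : ∀ t, momN b S t ^ (Q + 1) = ∑ B ∈ S,
      Set.indicator {t : TT d | inB b B t} (fun t => momN b S t ^ Q) t := by
    intro t
    rw [pow_succ]
    conv_lhs => rw [momN_eq b S t]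
    rw [← momN_eq b S t]
    conv_lhs => enter [2]; rw [momN_eq b S t]
    rw [Finset.mul_sum]
    refine Finset.sum_congr rfl fun B _ => ?_
    by_cases h : inB b B t <;> simp [Set.indicator, h]
  simp_rw [h1]
  rw [lintegral_finset_sum]
  · refine Finset.sum_congr rfl fun B _ => ?_
    rw [lintegral_indicator (hI B), Measure.restrict_restrict (hI B)]
  · intro B _
    exact ((momN_meas hI S).pow_const Q).indicator (hI B)

private theorem mom_sum_max {d : ℕ} (τ s : Fin d → ℕ) :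
    ∑ i, max (τ i) (s i) = ∑ i, τ i + ∑ i, (s i - τ i) := by
  rw [← Finset.sum_add_distrib]
  refine Finset.sum_congr rfl fun i _ => ?_
  omega

private theorem mom_card {d : ℕ} {b : ℕ} (h4 : ST_BXI) (hb : 2 ≤ b) (l : ℕ) (S : Finset (Bo d))
    (hS : S ⊆ lev b d l) (R : Bo d) (f : ℕ → ℝ) (hf : ∀ n, 0 ≤ f n) :
    ∑ B ∈ S.filter (fun B => ∃ t, inB b R t ∧ inB b B t), f (∑ i, (B.1 i - R.1 i)) ≤
      ∑ s ∈ shp d l, min (S.card : ℝ) ((b : ℝ) ^ (∑ i, (s i - R.1 i))) *
        f (∑ i, (s i - R.1 i)) := by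
  have hmap : ∀ B ∈ S.filter (fun B => ∃ t, inB b R t ∧ inB b B t), B.1 ∈ shp d l := by
    intro B hB
    exact mem_shp.2 (mem_lev.1 (hS (mem_filter.1 hB).1)).1
  rw [← Finset.sum_fiberwise_of_maps_to hmap]
  refine Finset.sum_le_sum fun s hs => ?_
  have h1 : ∀ B ∈ (S.filter (fun B => ∃ t, inB b R t ∧ inB b B t)).filter (fun B => B.1 = s),
      f (∑ i, (B.1 i - R.1 i)) = f (∑ i, (s i - R.1 i)) := by
    intro B hB
    rw [(mem_filter.1 hB).2]
  rw [Finset.sum_congr rfl h1, Finset.sum_const, nsmul_eq_mul]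
  refine mul_le_mul_of_nonneg_right (le_min ?_ ?_) (hf _)
  · exact_mod_cast Finset.card_le_card ((Finset.filter_subset _ _).trans (Finset.filter_subset _ _))
  · have h2 := (h4 b d R s hb).2
    have h3 : ((S.filter (fun B => ∃ t, inB b R t ∧ inB b B t)).filter
        (fun B => B.1 = s)).card ≤
        ((gr b s).filter (fun a => ∃ t, inB b R t ∧ inB b (s, a) t)).card := by
      refine Finset.card_le_card_of_injOn (fun B => B.2) ?_ ?_
      · intro B hB
        have hB' := mem_filter.1 (Finset.mem_coe.1 hB)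
        have hB'' := mem_filter.1 hB'.1
        have hl := mem_lev.1 (hS hB''.1)
        rw [Finset.mem_coe, mem_filter]
        refine ⟨mem_gr.2 ?_, ?_⟩
        · intro i
          have := hl.2 i
          rw [hB'.2] at this
          exact this
        · obtain ⟨t, ht1, ht2⟩ := hB''.2
          refine ⟨t, ht1, ?_⟩
          have : (s, B.2) = B := by rw [← hB'.2]
          rw [this]
          exact ht2
      · intro B hB B' hB' h
        have e1 := (mem_filter.1 (Finset.mem_coe.1 hB)).2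
        have e2 := (mem_filter.1 (Finset.mem_coe.1 hB')).2
        exact Prod.ext (e1.trans e2.symm) h
    exact_mod_cast h3.trans h2

private theorem mom_shapes {d : ℕ} (h2 : ST_MCT) (l : ℕ) (τ : Fin d → ℕ)
    (hτ : l ≤ ∑ i, τ i) (g : ℕ → ℝ) (hg : ∀ n, 0 ≤ g n) :
    ∑ s ∈ shp d l, g (∑ i, (s i - τ i)) ≤
      ∑ δ ∈ range (l + 1), ((1 + (δ : ℝ)) ^ (2 * d) *
        (1 + ((∑ i, τ i - l : ℕ) : ℝ)) ^ d) * g δ := by
  have hmap : ∀ s ∈ shp d l, ∑ i, (s i - τ i) ∈ range (l + 1) := by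
    intro s hs
    rw [mem_range]
    have h := mem_shp.1 hs
    have : ∑ i, (s i - τ i) ≤ ∑ i, s i := Finset.sum_le_sum fun i _ => Nat.sub_le _ _
    omega
  rw [← Finset.sum_fiberwise_of_maps_to hmap]
  refine Finset.sum_le_sum fun δ hδ => ?_
  have h1 : ∀ s ∈ (shp d l).filter (fun s => ∑ i, (s i - τ i) = δ),
      g (∑ i, (s i - τ i)) = g δ := by
    intro s hs
    rw [(mem_filter.1 hs).2]
  rw [Finset.sum_congr rfl h1, Finset.sum_const, nsmul_eq_mul]
  refine mul_le_mul_of_nonneg_right ?_ (hg _)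
  have h3 := h2 d l δ τ hτ
  have h4 : (((shp d l).filter (fun s => ∑ i, (s i - τ i) = δ)).card : ℝ) ≤
      ((δ : ℝ) + 1) ^ d * (((∑ i, τ i - l : ℕ) : ℝ) + δ + 1) ^ d := by
    exact_mod_cast h3
  refine h4.trans ?_
  have h5 : ((∑ i, τ i - l : ℕ) : ℝ) + δ + 1 ≤ (1 + (δ : ℝ)) * (1 + ((∑ i, τ i - l : ℕ) : ℝ)) := by
    have e1 : (0 : ℝ) ≤ δ := Nat.cast_nonneg _
    have e2 : (0 : ℝ) ≤ ((∑ i, τ i - l : ℕ) : ℝ) := Nat.cast_nonneg _
    nlinarith [mul_nonneg e1 e2]
  have h6 : (0 : ℝ) ≤ ((∑ i, τ i - l : ℕ) : ℝ) + δ + 1 := by positivity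
  calc ((δ : ℝ) + 1) ^ d * (((∑ i, τ i - l : ℕ) : ℝ) + δ + 1) ^ d
      ≤ ((δ : ℝ) + 1) ^ d * ((1 + (δ : ℝ)) * (1 + ((∑ i, τ i - l : ℕ) : ℝ))) ^ d := by
        refine mul_le_mul_of_nonneg_left (pow_le_pow_left₀ h6 h5 d) (by positivity)
    _ = (1 + (δ : ℝ)) ^ (2 * d) * (1 + ((∑ i, τ i - l : ℕ) : ℝ)) ^ d := by
        rw [mul_pow, two_mul, pow_add, add_comm (δ : ℝ) 1]
        ring

private theorem mom_claim (h1 : ST_IXB) (h2 : ST_MCT) (h3 : ST_MNS) (h4 : ST_BXI)
    (b d : ℕ) (hb : 2 ≤ b) (Q : ℕ) : ∃ (C : ℝ) (E : ℕ), 0 < C ∧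
    ∀ (l : ℕ) (S : Finset (Bo d)), S ⊆ lev b d l → S.Nonempty → ∀ R : Bo d,
    (∀ i, R.2 i < b ^ R.1 i) → l ≤ ∑ i, R.1 i →
    ∫⁻ t in {t : TT d | inB b R t}, momN b S t ^ Q ∂haar d ≤
      ENNReal.ofReal (C * ((b : ℝ) ^ (∑ i, R.1 i))⁻¹ *
        ((1 + ((∑ i, R.1 i - l : ℕ) : ℝ)) * (1 + Real.log S.card)) ^ E) := by
  obtain ⟨-, -, -, -, -, -, hI, hM⟩ := h1 b hb
  have hI' := hI d
  have hM' := hM d
  have hb0 : (0 : ℝ) < b := by
    have : 0 < b := by omega
    exact_mod_cast this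
  induction Q with
  | zero =>
    refine ⟨1, 0, one_pos, ?_⟩
    intro l S _ _ R hR _
    simp only [pow_zero, mul_one, one_mul, lintegral_const, Measure.restrict_apply,
      MeasurableSet.univ, Set.univ_inter]
    rw [hM' R hR]
  | succ Q ih =>
    obtain ⟨C, E, hC, ih⟩ := ih
    obtain ⟨C₂, hC₂, hN⟩ := h3 b (2 * d + E) hb
    refine ⟨C * C₂, 2 * E + 2 * d + 1, mul_pos hC hC₂, ?_⟩
    intro l S hS hSn R hR hl
    have hcard : (1 : ℝ) ≤ (S.card : ℝ) := by
      exact_mod_cast Finset.card_pos.2 hSn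
    have hlog : 0 ≤ Real.log (S.card : ℝ) := Real.log_nonneg hcard
    set L : ℝ := 1 + Real.log (S.card : ℝ) with hL
    have hL1 : 1 ≤ L := by linarith
    set τ : ℕ := ∑ i, R.1 i with hτ
    set T : ℝ := 1 + ((τ - l : ℕ) : ℝ) with hT
    have hT1 : 1 ≤ T := by
      have : (0 : ℝ) ≤ ((τ - l : ℕ) : ℝ) := Nat.cast_nonneg _
      linarith
    rw [mom_step hI' S _ Q]
    -- bound for each box
    set f : ℕ → ℝ := fun δ => C * ((b : ℝ) ^ (τ + δ))⁻¹ * ((T * (1 + (δ : ℝ))) * L) ^ E with hf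
    have hf0 : ∀ n, 0 ≤ f n := by
      intro n
      simp only [hf]
      positivity
    have hbox : ∀ B ∈ S, ∫⁻ t in {t : TT d | inB b B t} ∩ {t : TT d | inB b R t},
        momN b S t ^ Q ∂haar d ≤ ENNReal.ofReal
          (if (∃ t, inB b R t ∧ inB b B t) then f (∑ i, (B.1 i - R.1 i)) else 0) := by
      intro B hB
      split_ifs with hmeet
      · obtain ⟨α, hα, hα2⟩ := (h4 b d R B.1 hb).1 B.2 (by simpa using hmeet)
        have hset : {t : TT d | inB b B t} ∩ {t : TT d | inB b R t} =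
            {t : TT d | inB b ((fun i => max (R.1 i) (B.1 i)), α) t} := by
          ext t
          simp only [Set.mem_inter_iff, Set.mem_setOf_eq]
          rw [← hα2 t]
          exact And.comm
        rw [hset]
        have hsum : ∑ i, max (R.1 i) (B.1 i) = τ + ∑ i, (B.1 i - R.1 i) := mom_sum_max R.1 B.1
        have := ih l S hS hSn ((fun i => max (R.1 i) (B.1 i)), α) hα (by
          simp only
          rw [hsum]
          omega)
        refine this.trans (ENNReal.ofReal_le_ofReal ?_)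
        simp only [hf]
        rw [hsum]
        refine mul_le_mul_of_nonneg_left (pow_le_pow_left₀ ?_ ?_ E) (by positivity)
        · positivity
        · refine mul_le_mul_of_nonneg_right ?_ (by linarith)
          have e0 : τ + ∑ i, (B.1 i - R.1 i) - l = (τ - l) + ∑ i, (B.1 i - R.1 i) := by omega
          rw [e0]
          push_cast
          have e1 : (0 : ℝ) ≤ ∑ i, ((B.1 i - R.1 i : ℕ) : ℝ) :=
            Finset.sum_nonneg fun i _ => Nat.cast_nonneg _
          have e2 : (0 : ℝ) ≤ ((τ - l : ℕ) : ℝ) := Nat.cast_nonneg _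
          simp only [hT]
          nlinarith [mul_nonneg e1 e2]
      · have hset : {t : TT d | inB b B t} ∩ {t : TT d | inB b R t} = ∅ := by
          ext t
          simp only [Set.mem_inter_iff, Set.mem_setOf_eq, Set.mem_empty_iff_false, iff_false]
          intro h
          exact hmeet ⟨t, h.2, h.1⟩
        rw [hset]
        simp
    refine (Finset.sum_le_sum hbox).trans ?_
    rw [← ENNReal.ofReal_sum_of_nonneg]
    · refine ENNReal.ofReal_le_ofReal ?_
      rw [← Finset.sum_filter]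
      refine (mom_card h4 hb l S hS R f hf0).trans ?_
      set g : ℕ → ℝ := fun δ => min (S.card : ℝ) ((b : ℝ) ^ δ) * f δ with hg
      have hg0 : ∀ n, 0 ≤ g n := by
        intro n
        simp only [hg]
        exact mul_nonneg (le_min (by linarith) (by positivity)) (hf0 n)
      refine (mom_shapes h2 l R.1 hl g hg0).trans ?_
      have hterm : ∀ δ ∈ range (l + 1), ((1 + (δ : ℝ)) ^ (2 * d) *
          (1 + ((∑ i, R.1 i - l : ℕ) : ℝ)) ^ d) * g δ =
          (C * ((b : ℝ) ^ τ)⁻¹ * T ^ (E + d) * L ^ E) *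
          ((1 + (δ : ℝ)) ^ (2 * d + E) * min 1 ((S.card : ℝ) * ((b : ℝ) ^ δ)⁻¹)) := by
        intro δ _
        simp only [hg, hf]
        rw [← hτ, ← hT]
        have e1 : min 1 ((S.card : ℝ) * ((b : ℝ) ^ δ)⁻¹) =
            min (S.card : ℝ) ((b : ℝ) ^ δ) * ((b : ℝ) ^ δ)⁻¹ := by
          rw [min_mul_of_nonneg _ _ (by positivity), mul_inv_cancel₀ (by positivity), min_comm]
        rw [e1, pow_add (b : ℝ), mul_inv, mul_pow (T * (1 + (δ : ℝ))), mul_pow T]
        ring
      rw [Finset.sum_congr rfl hterm, ← Finset.mul_sum]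
      have h5 := hN (l + 1) (S.card : ℝ) hcard
      calc (C * ((b : ℝ) ^ τ)⁻¹ * T ^ (E + d) * L ^ E) *
            ∑ δ ∈ range (l + 1), ((1 + (δ : ℝ)) ^ (2 * d + E) *
              min 1 ((S.card : ℝ) * ((b : ℝ) ^ δ)⁻¹))
          ≤ (C * ((b : ℝ) ^ τ)⁻¹ * T ^ (E + d) * L ^ E) * (C₂ * L ^ (2 * d + E + 1)) := by
            refine mul_le_mul_of_nonneg_left h5 (by positivity)
        _ = (C * C₂ * ((b : ℝ) ^ τ)⁻¹) * (T ^ (E + d) * L ^ (2 * E + 2 * d + 1)) := by
            have : 2 * E + 2 * d + 1 = E + (2 * d + E + 1) := by ring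
            rw [this, pow_add L]
            ring
        _ ≤ (C * C₂ * ((b : ℝ) ^ τ)⁻¹) * (T * L) ^ (2 * E + 2 * d + 1) := by
            refine mul_le_mul_of_nonneg_left ?_ (by positivity)
            rw [mul_pow]
            refine mul_le_mul_of_nonneg_right (pow_le_pow_right₀ hT1 (by omega)) (by positivity)
    · intro B _
      split_ifs
      · exact hf0 _
      · exact le_rfl

/-- MOM -/
theorem st_MOM (h1 : ST_IXB) (h2 : ST_MCT) (h3 : ST_MNS) (h4 : ST_BXI) : ST_MOM := by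
  intro b d Q hb
  obtain ⟨C, E, hC, hcl⟩ := mom_claim h1 h2 h3 h4 b d hb Q
  obtain ⟨-, -, -, -, -, -, hI, hM⟩ := h1 b hb
  have hI' := hI d
  refine ⟨C, E, hC, ?_⟩
  intro l S hS
  rcases S.eq_empty_or_nonempty with rfl | hSn
  · simp
  have hcard : (1 : ℝ) ≤ (S.card : ℝ) := by
    exact_mod_cast Finset.card_pos.2 hSn
  have hlog : 0 ≤ Real.log (S.card : ℝ) := Real.log_nonneg hcard
  have h0 : ∫⁻ t, ((S.filter (fun B => inB b B t)).card : ℝ≥0∞) ^ (Q + 1) ∂haar d =
      ∫⁻ t in (Set.univ : Set (TT d)), momN b S t ^ (Q + 1) ∂haar d := by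
    rw [Measure.restrict_univ]
    rfl
  rw [h0, mom_step hI' S _ Q]
  have hbox : ∀ B ∈ S, ∫⁻ t in {t : TT d | inB b B t} ∩ Set.univ,
      momN b S t ^ Q ∂haar d ≤ ENNReal.ofReal
        (C * ((b : ℝ) ^ l)⁻¹ * (1 + Real.log S.card) ^ E) := by
    intro B hB
    have hl := mem_lev.1 (hS hB)
    rw [Set.inter_univ]
    have := hcl l S hS hSn B hl.2 hl.1.ge
    rw [hl.1] at this
    simpa using this
  refine (Finset.sum_le_sum hbox).trans ?_
  rw [Finset.sum_const, nsmul_eq_mul]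
  rw [← ENNReal.ofReal_natCast, ← ENNReal.ofReal_mul (Nat.cast_nonneg _)]
  refine ENNReal.ofReal_le_ofReal (le_of_eq ?_)
  ring

end Pool.Agent.Helper37.SU
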