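import Pool.Agent.Helper37.SU.Stmts

set_option autoImplicit false

namespace Pool.Agent.Helper37.SU

open MeasureTheory Finset
open scoped ENNReal Classical

private theorem rpr_pt (b j a : ℕ) : pt b j a = a • pt b j 1 := by
  unfold pt
  rw [← AddCircle.coe_nsmul]
  congr 1
  rw [nsmul_eq_mul]
  push_cast
  ring

private theorem rpr_four_nsmul (m : ℤ) (a : ℕ) (x : UnitAddCircle) :
    (fourier m (a • x) : ℂ) = (fourier m x : ℂ) ^ a := by
  induction a with
  | zero => simp
  | succ a ih =>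
    rw [succ_nsmul, pow_succ, ← ih]
    simp only [fourier_apply, smul_add, AddCircle.toCircle_add, Circle.coe_mul]

private theorem rpr_one (b j : ℕ) (hb : 1 ≤ b) (m : ℤ) :
    (fourier m (pt b j 1) : ℂ) = 1 ↔ ((b : ℤ) ^ j) ∣ m := by
  have hN : ((b : ℝ) ^ j) ≠ 0 := by
    have : 0 < b := by omega
    positivity
  unfold pt
  rw [fourier_coe_apply, Complex.exp_eq_one_iff]
  have hpi : (2 * Real.pi * Complex.I : ℂ) ≠ 0 := Complex.two_pi_I_ne_zero
  constructor
  · rintro ⟨n, hn⟩
    refine ⟨n, ?_⟩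
    have h1 : (m : ℂ) * ((1 : ℂ) / (b : ℂ) ^ j) = n := by
      have : (2 * Real.pi * Complex.I : ℂ) * ((m : ℂ) * ((1 : ℂ) / (b : ℂ) ^ j)) =
          (2 * Real.pi * Complex.I : ℂ) * n := by
        push_cast at hn
        linear_combination hn
      exact mul_left_cancel₀ hpi this
    have hN' : ((b : ℂ) ^ j) ≠ 0 := by
      have : 0 < b := by omega
      have : (b : ℂ) ≠ 0 := by exact_mod_cast this.ne'
      exact pow_ne_zero _ this
    have h2 : (m : ℂ) = (b : ℂ) ^ j * n := by
      field_simp at h1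
      linear_combination h1
    exact_mod_cast h2
  · rintro ⟨n, rfl⟩
    refine ⟨n, ?_⟩
    have hN' : ((b : ℂ) ^ j) ≠ 0 := by
      have : 0 < b := by omega
      have : (b : ℂ) ≠ 0 := by exact_mod_cast this.ne'
      exact pow_ne_zero _ this
    push_cast
    field_simp

private theorem rpr_sum (b j : ℕ) (hb : 1 ≤ b) (m : ℤ) :
    ∑ a ∈ range (b ^ j), (fourier m (pt b j a) : ℂ) =
      if ((b : ℤ) ^ j) ∣ m then (b : ℂ) ^ j else 0 := by
  have h1 : ∀ a ∈ range (b ^ j), (fourier m (pt b j a) : ℂ) = (fourier m (pt b j 1) : ℂ) ^ a := by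
    intro a _
    rw [rpr_pt, rpr_four_nsmul]
  rw [Finset.sum_congr rfl h1]
  split_ifs with h
  · rw [(rpr_one b j hb m).2 h]
    simp
  · have hne : (fourier m (pt b j 1) : ℂ) ≠ 1 := fun hc => h ((rpr_one b j hb m).1 hc)
    have hpow : (fourier m (pt b j 1) : ℂ) ^ (b ^ j) = 1 := by
      rw [← rpr_four_nsmul, ← rpr_pt]
      have : pt b j (b ^ j) = 0 := by
        unfold pt
        have hN : ((b : ℝ) ^ j) ≠ 0 := by
          have : 0 < b := by omega
          positivity
        push_cast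
        rw [div_self hN]
        exact AddCircle.coe_period 1
      rw [this]
      simp
    rw [geom_sum_eq hne, hpow, sub_self, zero_div]

private theorem rpr_om (h1 : ST_OM) (b j : ℕ) (hb : 1 ≤ b) (k n : ℤ) (hk : 4 * |k| ≤ (b : ℤ) ^ j)
    (hd : ((b : ℤ) ^ j) ∣ (k - n)) (hne : n ≠ k) : om ((n : ℝ) / (b : ℝ) ^ j) = 0 := by
  obtain ⟨-, -, h0, -, -⟩ := h1
  have hNpos : 0 < (b : ℤ) ^ j := by
    have : (0 : ℤ) < b := by omega
    positivity
  have hNpos' : (0 : ℝ) < (b : ℝ) ^ j := by
    have : (0 : ℝ) < b := by exact_mod_cast (by omega : 0 < b)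
    positivity
  refine h0 _ ?_
  rw [abs_div, abs_of_pos hNpos', div_le_div_iff₀ (by norm_num) hNpos']
  have h2 : (b : ℤ) ^ j ≤ |k - n| := by
    refine Int.le_of_dvd (abs_pos.2 (sub_ne_zero.2 hne.symm)) ?_
    exact (dvd_abs _ _).2 hd
  have h3 : |k - n| ≤ |k| + |n| := abs_sub k n
  have h4 : 3 * (b : ℤ) ^ j ≤ |n| * 4 := by linarith
  exact_mod_cast h4

/-- RPR -/
theorem st_RPR (h1 : ST_OM) : ST_RPR := by
  intro b j Λ c t hb hΛ
  have hN' : ((b : ℂ) ^ j) ≠ 0 := by
    have : 0 < b := by omega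
    have : (b : ℂ) ≠ 0 := by exact_mod_cast this.ne'
    exact pow_ne_zero _ this
  have hsingle : ∀ k ∈ Λ, (fourier k t : ℂ) =
      ∑ a ∈ range (b ^ j), (fourier k (pt b j a) : ℂ) * ik b j (t - pt b j a) := by
    intro k hk
    have hk4 := hΛ k hk
    have h2 : ∀ a ∈ range (b ^ j), (fourier k (pt b j a) : ℂ) * ik b j (t - pt b j a) =
        ∑ n ∈ Icc (-((b : ℤ) ^ j)) ((b : ℤ) ^ j), ((b : ℂ) ^ j)⁻¹ *
          (((om ((n : ℝ) / (b : ℝ) ^ j) : ℝ) : ℂ) * fourier n t) *
          (fourier (k - n) (pt b j a) : ℂ) := by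
      intro a _
      unfold ik vp
      rw [Finset.mul_sum, Finset.mul_sum]
      refine Finset.sum_congr rfl fun n _ => ?_
      have e1 : (fourier n (t - pt b j a) : ℂ) = fourier n t * fourier (-n) (pt b j a) := by
        rw [sub_eq_add_neg, fourier_apply, fourier_apply, fourier_apply, smul_add,
          AddCircle.toCircle_add, Circle.coe_mul, smul_neg, neg_smul]
      have e2 : (fourier (k - n) (pt b j a) : ℂ) =
          fourier k (pt b j a) * fourier (-n) (pt b j a) := by
        rw [sub_eq_add_neg, fourier_add]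
      rw [e1, e2]
      ring
    rw [Finset.sum_congr rfl h2, Finset.sum_comm]
    simp_rw [← Finset.mul_sum, rpr_sum b j hb]
    rw [Finset.sum_eq_single k]
    · rw [sub_self, if_pos (dvd_zero _)]
      have : om ((k : ℝ) / (b : ℝ) ^ j) = 1 := by
        obtain ⟨-, h0, -, -, -⟩ := h1
        have hNpos' : (0 : ℝ) < (b : ℝ) ^ j := by
          have : (0 : ℝ) < b := by exact_mod_cast (by omega : 0 < b)
          positivity
        refine h0 _ ?_
        rw [abs_div, abs_of_pos hNpos', div_le_div_iff₀ hNpos' (by norm_num)]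
        have : |k| * 4 ≤ 1 * (b : ℤ) ^ j := by linarith
        exact_mod_cast this
      rw [this]
      field_simp
      simp
    · intro n _ hne
      split_ifs with hd
      · rw [rpr_om h1 b j hb k n hk4 hd hne]
        simp
      · rw [mul_zero]
    · intro hnot
      exfalso
      apply hnot
      rw [mem_Icc]
      have h5 : |k| ≤ (b : ℤ) ^ j := by
        have := abs_nonneg k
        linarith
      exact abs_le.1 h5
  calc ∑ k ∈ Λ, c k * (fourier k t : ℂ)
      = ∑ k ∈ Λ, c k * ∑ a ∈ range (b ^ j), (fourier k (pt b j a) : ℂ) *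
          ik b j (t - pt b j a) := by
        refine Finset.sum_congr rfl fun k hk => ?_
        rw [← hsingle k hk]
    _ = _ := by
        simp_rw [Finset.mul_sum]
        rw [Finset.sum_comm]
        refine Finset.sum_congr rfl fun a _ => ?_
        rw [Finset.sum_mul]
        refine Finset.sum_congr rfl fun k _ => ?_
        ring

end Pool.Agent.Helper37.SU
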