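import Pool.Agent.Helper37.SU.Stmts

set_option autoImplicit false

namespace Pool.Agent.Helper37.SU

open MeasureTheory Finset
open scoped ENNReal Classical

private theorem syi_nat (b : ℕ) {d : ℕ} (S : Finset (Bo d)) (t : TT d) :
    ∑ B ∈ S, (if inB b B t then (1 : ℝ) else 0) = ((S.filter (fun B => inB b B t)).card : ℝ) := by
  rw [Finset.card_filter]
  push_cast
  rfl

private theorem syi_pow (n Q : ℕ) (q : ℝ) (hq : 0 < q) (hQ : q ≤ Q + 1) :
    (n : ℝ≥0∞) ^ q ≤ (n : ℝ≥0∞) ^ (Q + 1) := by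
  rcases Nat.eq_zero_or_pos n with rfl | hn
  · simp [hq]
  · have h1 : (1 : ℝ≥0∞) ≤ n := by exact_mod_cast hn
    have h2 := ENNReal.rpow_le_rpow_of_exponent_le h1 hQ
    refine h2.trans (le_of_eq ?_)
    have : ((Q : ℝ) + 1) = ((Q + 1 : ℕ) : ℝ) := by push_cast; ring
    rw [this, ENNReal.rpow_natCast]

private theorem syi_meas {b d : ℕ} (hI : ∀ B : Bo d, MeasurableSet {t : TT d | inB b B t})
    (S : Finset (Bo d)) (y : Bo d → ℝ) :
    Measurable (fun t : TT d => ∑ B ∈ S, y B * (if inB b B t then (1 : ℝ) else 0)) := by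
  refine Finset.measurable_sum _ fun B _ => ?_
  exact (Measurable.ite (hI B) measurable_const measurable_const).const_mul _

private theorem syi_ind (h1 : ST_MOM) (b d : ℕ) (q : ℝ) (hb : 2 ≤ b) (hq : 1 ≤ q) :
    ∃ (C : ℝ) (E : ℕ), 0 < C ∧ ∀ (l : ℕ) (S : Finset (Bo d)), S ⊆ lev b d l →
    eLpNorm (fun t : TT d => ∑ B ∈ S, (if inB b B t then (1 : ℝ) else 0)) (ENNReal.ofReal q)
      (haar d) ≤
    ENNReal.ofReal ((C * S.card * ((b : ℝ) ^ l)⁻¹ * (1 + Real.log S.card) ^ E) ^ (1 / q)) := by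
  have hq0 : 0 < q := by linarith
  obtain ⟨C, E, hC, hM⟩ := h1 b d ⌈q⌉₊ hb
  refine ⟨C, E, hC, ?_⟩
  intro l S hS
  have hne : ENNReal.ofReal q ≠ 0 := by
    rw [Ne, ENNReal.ofReal_eq_zero]
    linarith
  rw [eLpNorm_eq_lintegral_rpow_enorm_toReal hne ENNReal.ofReal_ne_top,
    ENNReal.toReal_ofReal hq0.le]
  have hX : 0 ≤ C * S.card * ((b : ℝ) ^ l)⁻¹ * (1 + Real.log S.card) ^ E := by
    have : 0 ≤ Real.log (S.card : ℝ) := Real.log_natCast_nonneg _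
    positivity
  rw [← ENNReal.ofReal_rpow_of_nonneg hX (by positivity)]
  refine ENNReal.rpow_le_rpow ?_ (by positivity)
  refine (lintegral_mono fun t => ?_).trans (hM l S hS)
  rw [syi_nat, Real.enorm_of_nonneg (Nat.cast_nonneg _), ENNReal.ofReal_natCast]
  exact syi_pow _ _ _ hq0 ((Nat.le_ceil q).trans (by linarith))

private theorem syi_series (ρ : ℝ) (E : ℕ) (h0 : 0 < ρ) (h1 : ρ < 1) :
    ∃ K : ℝ, 0 < K ∧ ∀ I : ℕ, ∑ i ∈ range I, ((i : ℝ) + 2) ^ E * ρ ^ i ≤ K := by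
  have hs : Summable (fun n : ℕ => (n : ℝ) ^ E * ρ ^ n) :=
    summable_pow_mul_geometric_of_norm_lt_one E (by rwa [Real.norm_of_nonneg h0.le])
  have hs2 := (summable_nat_add_iff 2).2 hs
  have hs3 : Summable (fun n : ℕ => ((n : ℝ) + 2) ^ E * ρ ^ n) := by
    refine (hs2.mul_left ((ρ ^ 2)⁻¹)).congr fun n => ?_
    push_cast
    rw [pow_add]
    field_simp
  refine ⟨∑' n : ℕ, ((n : ℝ) + 2) ^ E * ρ ^ n + 1, ?_, fun I => ?_⟩
  · have : 0 ≤ ∑' n : ℕ, ((n : ℝ) + 2) ^ E * ρ ^ n := tsum_nonneg fun n => by positivity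
    linarith
  · have := hs3.sum_le_tsum (range I) (fun n _ => by positivity)
    linarith

/-- the layers -/
private noncomputable def syiL {d : ℕ} (S : Finset (Bo d)) (y : Bo d → ℝ) (Y : ℝ) (i : ℕ) :
    Finset (Bo d) :=
  S.filter (fun B => (2 : ℝ)⁻¹ ^ (i + 1) * Y < y B ∧ y B ≤ (2 : ℝ)⁻¹ ^ i * Y)

private theorem syi_exists_layer {y Y : ℝ} (hy : 0 < y) (hY : y ≤ Y) :
    ∃ i : ℕ, (2 : ℝ)⁻¹ ^ (i + 1) * Y < y ∧ y ≤ (2 : ℝ)⁻¹ ^ i * Y := by
  have hY0 : 0 < Y := lt_of_lt_of_le hy hY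
  have hex : ∃ n : ℕ, (2 : ℝ)⁻¹ ^ (n + 1) * Y < y := by
    obtain ⟨n, hn⟩ := exists_pow_lt_of_lt_one (div_pos hy hY0) (by norm_num : (2 : ℝ)⁻¹ < 1)
    refine ⟨n, ?_⟩
    have h1 : (2 : ℝ)⁻¹ ^ (n + 1) ≤ (2 : ℝ)⁻¹ ^ n :=
      pow_le_pow_of_le_one (by norm_num) (by norm_num) (Nat.le_succ n)
    have h2 : (2 : ℝ)⁻¹ ^ (n + 1) < y / Y := lt_of_le_of_lt h1 hn
    rwa [lt_div_iff₀ hY0] at h2
  refine ⟨Nat.find hex, Nat.find_spec hex, ?_⟩
  by_cases h0 : Nat.find hex = 0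
  · rw [h0, pow_zero, one_mul]
    exact hY
  · obtain ⟨k, hk⟩ := Nat.exists_eq_succ_of_ne_zero h0
    have := Nat.find_min hex (m := k) (by omega)
    rw [not_lt] at this
    rw [hk]
    exact this

private theorem syi_card {d : ℕ} (S : Finset (Bo d)) (y : Bo d → ℝ) (u Y : ℝ) (i : ℕ)
    (hu : 1 ≤ u) (hY : 0 < Y) (hy : ∀ B ∈ S, 0 ≤ y B) (hsum : ∑ B ∈ S, y B ^ u ≤ Y ^ u) :
    ((syiL S y Y i).card : ℝ) ≤ (2 : ℝ) ^ (((i : ℝ) + 1) * u) := by
  have h1 : ∑ B ∈ syiL S y Y i, ((2 : ℝ)⁻¹ ^ (i + 1) * Y) ^ u ≤ Y ^ u := by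
    refine le_trans ?_ ((Finset.sum_le_sum_of_subset_of_nonneg
      (show syiL S y Y i ⊆ S from Finset.filter_subset _ _) ?_).trans hsum)
    · refine Finset.sum_le_sum fun B hB => ?_
      exact Real.rpow_le_rpow (by positivity) (mem_filter.1 hB).2.1.le (by linarith)
    · intro B hB _
      exact Real.rpow_nonneg (hy B hB) _
  rw [Finset.sum_const, nsmul_eq_mul, Real.mul_rpow (by positivity) hY.le, ← mul_assoc] at h1
  have h2 : 0 < Y ^ u := Real.rpow_pos_of_pos hY _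
  have h3 : ((syiL S y Y i).card : ℝ) * ((2 : ℝ)⁻¹ ^ (i + 1)) ^ u ≤ 1 := by
    by_contra hcon
    rw [not_le] at hcon
    have := mul_lt_mul_of_pos_right hcon h2
    linarith
  have h4 : ((2 : ℝ)⁻¹ ^ (i + 1)) ^ u = ((2 : ℝ) ^ (((i : ℝ) + 1) * u))⁻¹ := by
    rw [inv_pow, Real.inv_rpow (by positivity), ← Real.rpow_natCast, ← Real.rpow_mul (by norm_num)]
    push_cast
    rfl
  rw [h4] at h3
  have h5 : (0 : ℝ) < (2 : ℝ) ^ (((i : ℝ) + 1) * u) := Real.rpow_pos_of_pos (by norm_num) _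
  rwa [mul_inv_le_iff₀ h5, one_mul] at h3

private theorem syi_term (b l : ℕ) (C q u ρ : ℝ) (E : ℕ) (n : ℝ) (i : ℕ) (hb : 2 ≤ b)
    (hC : 0 < C) (hq : 1 ≤ q) (hu : 1 ≤ u) (hn1 : 1 ≤ n)
    (hn : n ≤ (2 : ℝ) ^ (((i : ℝ) + 1) * u)) (hρ : ρ = (2 : ℝ) ^ (u / q - 1)) :
    (2 : ℝ)⁻¹ ^ i * (C * n * ((b : ℝ) ^ l)⁻¹ * (1 + Real.log n) ^ E) ^ (1 / q) ≤
      (C ^ (1 / q) * (b : ℝ) ^ (-((l : ℝ) / q)) * (2 : ℝ) ^ (u / q) * u ^ E) *
        (((i : ℝ) + 2) ^ E * ρ ^ i) := by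
  have hq0 : 0 < q := by linarith
  have hb0 : (0 : ℝ) < b := by
    have : 0 < b := by omega
    exact_mod_cast this
  have hlog0 : 0 ≤ Real.log n := Real.log_nonneg hn1
  have hlog : Real.log n ≤ ((i : ℝ) + 1) * u := by
    have h1 := Real.log_le_log (by linarith) hn
    rw [Real.log_rpow (by norm_num)] at h1
    have h2 : Real.log 2 ≤ 1 := by
      have := Real.log_two_lt_d9
      linarith
    have h3 : 0 ≤ ((i : ℝ) + 1) * u := by positivity
    nlinarith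
  have hlog2 : 1 + Real.log n ≤ u * ((i : ℝ) + 2) := by nlinarith
  have e1 : (C * n * ((b : ℝ) ^ l)⁻¹ * (1 + Real.log n) ^ E) ^ (1 / q) =
      C ^ (1 / q) * n ^ (1 / q) * (((b : ℝ) ^ l)⁻¹) ^ (1 / q) *
        ((1 + Real.log n) ^ E) ^ (1 / q) := by
    rw [Real.mul_rpow (by positivity) (by positivity), Real.mul_rpow (by positivity)
      (by positivity), Real.mul_rpow (by positivity) (by positivity)]
  have e2 : (((b : ℝ) ^ l)⁻¹) ^ (1 / q) = (b : ℝ) ^ (-((l : ℝ) / q)) := by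
    rw [← Real.rpow_natCast, ← Real.rpow_neg hb0.le, ← Real.rpow_mul hb0.le]
    congr 1
    ring
  have e3 : n ^ (1 / q) ≤ (2 : ℝ) ^ (u / q) * ((2 : ℝ) ^ (u / q)) ^ i := by
    refine (Real.rpow_le_rpow (by linarith) hn (by positivity)).trans (le_of_eq ?_)
    rw [← Real.rpow_mul (by norm_num), ← Real.rpow_natCast, ← Real.rpow_mul (by norm_num),
      ← Real.rpow_add (by norm_num)]
    congr 1
    field_simp
    ring
  have e4 : ((1 + Real.log n) ^ E) ^ (1 / q) ≤ u ^ E * ((i : ℝ) + 2) ^ E := by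
    have h1 : (1 : ℝ) ≤ (1 + Real.log n) ^ E := one_le_pow₀ (by linarith)
    have h2 : ((1 + Real.log n) ^ E) ^ (1 / q) ≤ ((1 + Real.log n) ^ E) ^ (1 : ℝ) :=
      Real.rpow_le_rpow_of_exponent_le h1 (by rw [div_le_one hq0]; exact hq)
    rw [Real.rpow_one] at h2
    refine h2.trans ?_
    rw [← mul_pow]
    exact pow_le_pow_left₀ (by linarith) hlog2 E
  have e5 : ρ ^ i = (2 : ℝ)⁻¹ ^ i * ((2 : ℝ) ^ (u / q)) ^ i := by
    rw [← mul_pow, hρ, Real.rpow_sub (by norm_num), Real.rpow_one, div_eq_inv_mul]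
  rw [e1, e2, e5]
  have hA : 0 ≤ (2 : ℝ)⁻¹ ^ i * (C ^ (1 / q) * (b : ℝ) ^ (-((l : ℝ) / q))) := by positivity
  calc (2 : ℝ)⁻¹ ^ i * (C ^ (1 / q) * n ^ (1 / q) * (b : ℝ) ^ (-((l : ℝ) / q)) *
        ((1 + Real.log n) ^ E) ^ (1 / q))
      = ((2 : ℝ)⁻¹ ^ i * (C ^ (1 / q) * (b : ℝ) ^ (-((l : ℝ) / q)))) *
        (n ^ (1 / q) * ((1 + Real.log n) ^ E) ^ (1 / q)) := by ring
    _ ≤ ((2 : ℝ)⁻¹ ^ i * (C ^ (1 / q) * (b : ℝ) ^ (-((l : ℝ) / q)))) *
        (((2 : ℝ) ^ (u / q) * ((2 : ℝ) ^ (u / q)) ^ i) * (u ^ E * ((i : ℝ) + 2) ^ E)) := by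
        refine mul_le_mul_of_nonneg_left ?_ hA
        exact mul_le_mul e3 e4 (by positivity) (by positivity)
    _ = _ := by ring

/-- SYI -/
theorem st_SYI (h1 : ST_MOM) (h2 : ST_IXB) : ST_SYI := by
  intro b d u q hb hu huq
  have hq1 : 1 ≤ q := by linarith
  have hq0 : 0 < q := by linarith
  have hb0 : (0 : ℝ) < b := by
    have : 0 < b := by omega
    exact_mod_cast this
  obtain ⟨-, -, -, -, -, -, hI, -⟩ := h2 b hb
  have hI' := hI d
  obtain ⟨C, E, hC, hind⟩ := syi_ind h1 b d q hb hq1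
  set ρ : ℝ := (2 : ℝ) ^ (u / q - 1) with hρ
  have hρ0 : 0 < ρ := Real.rpow_pos_of_pos (by norm_num) _
  have hρ1 : ρ < 1 := by
    refine Real.rpow_lt_one_of_one_lt_of_neg (by norm_num) ?_
    rw [sub_neg, div_lt_one hq0]
    exact huq
  obtain ⟨K, hK, hser⟩ := syi_series ρ E hρ0 hρ1
  refine ⟨C ^ (1 / q) * (2 : ℝ) ^ (u / q) * u ^ E * K, by positivity, ?_⟩
  intro l S y hS hy
  set Y : ℝ := (∑ B ∈ S, y B ^ u) ^ (1 / u) with hY
  have hu0 : 0 < u := by linarith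
  have hsum0 : 0 ≤ ∑ B ∈ S, y B ^ u := Finset.sum_nonneg fun B hB => Real.rpow_nonneg (hy B hB) _
  have hY0 : 0 ≤ Y := Real.rpow_nonneg hsum0 _
  have hYu : Y ^ u = ∑ B ∈ S, y B ^ u := by
    rw [hY, ← Real.rpow_mul hsum0, one_div, inv_mul_cancel₀ hu0.ne', Real.rpow_one]
  have hle : ∀ B ∈ S, y B ≤ Y := by
    intro B hB
    have h3 : y B ^ u ≤ Y ^ u := by
      rw [hYu]
      exact Finset.single_le_sum (f := fun B => y B ^ u)
        (fun B hB => Real.rpow_nonneg (hy B hB) _) hB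
    exact (Real.rpow_le_rpow_iff (hy B hB) hY0 hu0).1 h3
  rcases hY0.eq_or_lt with hY00 | hYpos
  · have hz : ∀ B ∈ S, y B = 0 := fun B hB => le_antisymm (by rw [hY00]; exact hle B hB) (hy B hB)
    have : (fun t : TT d => ∑ B ∈ S, y B * (if inB b B t then (1 : ℝ) else 0)) = fun _ => 0 := by
      funext t
      refine Finset.sum_eq_zero fun B hB => ?_
      rw [hz B hB, zero_mul]
    rw [this]
    simp
  -- layers
  have hlay : ∀ B ∈ S, 0 < y B → ∃ i, B ∈ syiL S y Y i := by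
    intro B hB hpos
    obtain ⟨i, hi⟩ := syi_exists_layer hpos (hle B hB)
    exact ⟨i, mem_filter.2 ⟨hB, hi⟩⟩
  choose! ι hι using hlay
  set I : ℕ := S.sup ι + 1 with hI0
  have hIlt : ∀ B ∈ S, ι B < I := by
    intro B hB
    have : ι B ≤ S.sup ι := Finset.le_sup hB
    omega
  -- pointwise bound
  have hpt : ∀ t : TT d, ‖∑ B ∈ S, y B * (if inB b B t then (1 : ℝ) else 0)‖ ≤
      ∑ i ∈ range I, (2 : ℝ)⁻¹ ^ i * Y *
        ∑ B ∈ syiL S y Y i, (if inB b B t then (1 : ℝ) else 0) := by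
    intro t
    have hnn : ∀ B ∈ S, 0 ≤ y B * (if inB b B t then (1 : ℝ) else 0) := by
      intro B hB
      have := hy B hB
      split_ifs <;> simp [this]
    rw [Real.norm_of_nonneg (Finset.sum_nonneg hnn)]
    calc ∑ B ∈ S, y B * (if inB b B t then (1 : ℝ) else 0)
        ≤ ∑ B ∈ S, ∑ i ∈ range I, (if B ∈ syiL S y Y i then
            (2 : ℝ)⁻¹ ^ i * Y * (if inB b B t then (1 : ℝ) else 0) else 0) := by
          refine Finset.sum_le_sum fun B hB => ?_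
          have hnn2 : ∀ i ∈ range I, 0 ≤ (if B ∈ syiL S y Y i then
              (2 : ℝ)⁻¹ ^ i * Y * (if inB b B t then (1 : ℝ) else 0) else 0) := by
            intro i _
            split_ifs <;> positivity
          rcases (hy B hB).eq_or_lt with h0 | hpos
          · rw [← h0, zero_mul]
            exact Finset.sum_nonneg hnn2
          · refine le_trans ?_ (Finset.single_le_sum hnn2 (mem_range.2 (hIlt B hB)))
            rw [if_pos (hι B hB hpos)]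
            exact mul_le_mul_of_nonneg_right (mem_filter.1 (hι B hB hpos)).2.2
              (by split_ifs <;> norm_num)
      _ = ∑ i ∈ range I, (2 : ℝ)⁻¹ ^ i * Y *
            ∑ B ∈ syiL S y Y i, (if inB b B t then (1 : ℝ) else 0) := by
          rw [Finset.sum_comm]
          refine Finset.sum_congr rfl fun i _ => ?_
          rw [Finset.mul_sum, ← Finset.sum_filter]
          refine Finset.sum_congr ?_ fun _ _ => rfl
          ext B
          simp only [mem_filter]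
          constructor
          · exact fun h => h.2
          · exact fun h => ⟨(mem_filter.1 h).1, h⟩
  refine (eLpNorm_mono_real hpt).trans ?_
  have hm : ∀ i : ℕ, Measurable (fun t : TT d => (2 : ℝ)⁻¹ ^ i * Y *
      ∑ B ∈ syiL S y Y i, (if inB b B t then (1 : ℝ) else 0)) := by
    intro i
    refine Measurable.const_mul ?_ _
    refine Finset.measurable_sum _ fun B _ => ?_
    exact Measurable.ite (hI' B) measurable_const measurable_const
  have hp1 : 1 ≤ ENNReal.ofReal q := by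
    rw [← ENNReal.ofReal_one]
    exact ENNReal.ofReal_le_ofReal hq1
  have hfun : (fun t : TT d => ∑ i ∈ range I, (2 : ℝ)⁻¹ ^ i * Y *
      ∑ B ∈ syiL S y Y i, (if inB b B t then (1 : ℝ) else 0)) =
      ∑ i ∈ range I, (fun t : TT d => (2 : ℝ)⁻¹ ^ i * Y *
        ∑ B ∈ syiL S y Y i, (if inB b B t then (1 : ℝ) else 0)) := by
    funext t
    rw [Finset.sum_apply]
  rw [hfun]
  refine (eLpNorm_sum_le (fun i _ => (hm i).aestronglyMeasurable) hp1).trans ?_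
  -- each layer
  have hterm : ∀ i ∈ range I, eLpNorm (fun t : TT d => (2 : ℝ)⁻¹ ^ i * Y *
      ∑ B ∈ syiL S y Y i, (if inB b B t then (1 : ℝ) else 0)) (ENNReal.ofReal q) (haar d) ≤
      ENNReal.ofReal (Y * ((C ^ (1 / q) * (b : ℝ) ^ (-((l : ℝ) / q)) * (2 : ℝ) ^ (u / q) * u ^ E) *
        (((i : ℝ) + 2) ^ E * ρ ^ i))) := by
    intro i _
    have hsm : (fun t : TT d => (2 : ℝ)⁻¹ ^ i * Y *
        ∑ B ∈ syiL S y Y i, (if inB b B t then (1 : ℝ) else 0)) =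
        ((2 : ℝ)⁻¹ ^ i * Y) • (fun t : TT d =>
          ∑ B ∈ syiL S y Y i, (if inB b B t then (1 : ℝ) else 0)) := by
      funext t
      simp [smul_eq_mul]
    rw [hsm, eLpNorm_const_smul, Real.enorm_of_nonneg (by positivity)]
    rcases (syiL S y Y i).eq_empty_or_nonempty with hemp | hne
    · rw [hemp]
      simp
    · have hn1 : (1 : ℝ) ≤ ((syiL S y Y i).card : ℝ) := by
        exact_mod_cast Finset.card_pos.2 hne
      have hn2 := syi_card S y u Y i hu hYpos hy hYu.ge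
      have hsub : syiL S y Y i ⊆ lev b d l := (Finset.filter_subset _ _).trans hS
      refine (mul_le_mul_of_nonneg_left (hind l _ hsub) zero_le).trans ?_
      rw [← ENNReal.ofReal_mul (by positivity)]
      refine ENNReal.ofReal_le_ofReal ?_
      have := syi_term b l C q u ρ E ((syiL S y Y i).card : ℝ) i hb hC hq1 hu hn1 hn2 hρ
      calc (2 : ℝ)⁻¹ ^ i * Y * (C * ((syiL S y Y i).card : ℝ) * ((b : ℝ) ^ l)⁻¹ *
            (1 + Real.log ((syiL S y Y i).card : ℝ)) ^ E) ^ (1 / q)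
          = Y * ((2 : ℝ)⁻¹ ^ i * (C * ((syiL S y Y i).card : ℝ) * ((b : ℝ) ^ l)⁻¹ *
            (1 + Real.log ((syiL S y Y i).card : ℝ)) ^ E) ^ (1 / q)) := by ring
        _ ≤ _ := mul_le_mul_of_nonneg_left this hY0
  refine (Finset.sum_le_sum hterm).trans ?_
  rw [← ENNReal.ofReal_sum_of_nonneg (fun i _ => by positivity)]
  refine ENNReal.ofReal_le_ofReal ?_
  rw [← Finset.mul_sum, ← Finset.mul_sum]
  have hb' : 0 < (b : ℝ) ^ (-((l : ℝ) / q)) := Real.rpow_pos_of_pos hb0 _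
  calc Y * ((C ^ (1 / q) * (b : ℝ) ^ (-((l : ℝ) / q)) * (2 : ℝ) ^ (u / q) * u ^ E) *
        ∑ i ∈ range I, ((i : ℝ) + 2) ^ E * ρ ^ i)
      ≤ Y * ((C ^ (1 / q) * (b : ℝ) ^ (-((l : ℝ) / q)) * (2 : ℝ) ^ (u / q) * u ^ E) * K) := by
        refine mul_le_mul_of_nonneg_left (mul_le_mul_of_nonneg_left (hser I) (by positivity)) hY0
    _ = C ^ (1 / q) * (2 : ℝ) ^ (u / q) * u ^ E * K * (b : ℝ) ^ (-((l : ℝ) / q)) * Y := by ring

end Pool.Agent.Helper37.SU
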