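import Pool.Agent.Helper37.SU.Stmts

set_option autoImplicit false

namespace Pool.Agent.Helper37.SU

open MeasureTheory Finset
open scoped ENNReal Classical

/-- MCT -/
theorem st_MCT : ST_MCT := by
  intro d l δ τ hl
  have h : ((shp d l).filter (fun s => ∑ i, (s i - τ i) = δ)).card ≤
      ((Fintype.piFinset fun _ : Fin d => range (δ + 1)) ×ˢ
        (Fintype.piFinset fun _ : Fin d => range (∑ i, τ i - l + δ + 1))).card := by
    refine Finset.card_le_card_of_injOn (fun s => (fun i => s i - τ i, fun i => τ i - s i)) ?_ ?_
    · intro s hs
      have hs' := mem_filter.1 (Finset.mem_coe.1 hs)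
      have h1 := mem_shp.1 hs'.1
      have h2 := hs'.2
      have h3 : ∑ i, (τ i - s i) + l = ∑ i, τ i + δ := by
        rw [← h1, ← h2, ← Finset.sum_add_distrib, ← Finset.sum_add_distrib]
        refine Finset.sum_congr rfl fun i _ => ?_
        omega
      rw [Finset.mem_coe, Finset.mem_product, Fintype.mem_piFinset, Fintype.mem_piFinset]
      constructor
      · intro i
        rw [mem_range]
        have : s i - τ i ≤ ∑ i, (s i - τ i) :=
          Finset.single_le_sum (f := fun i => s i - τ i) (fun _ _ => Nat.zero_le _) (mem_univ i)
        simp only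
        omega
      · intro i
        rw [mem_range]
        have : τ i - s i ≤ ∑ i, (τ i - s i) :=
          Finset.single_le_sum (f := fun i => τ i - s i) (fun _ _ => Nat.zero_le _) (mem_univ i)
        simp only
        omega
    · intro s _ s' _ h
      obtain ⟨h1, h2⟩ := Prod.mk.inj h
      funext i
      have e1 := congrFun h1 i
      have e2 := congrFun h2 i
      omega
  refine h.trans (le_of_eq ?_)
  rw [Finset.card_product, Fintype.card_piFinset, Fintype.card_piFinset]
  simp

end Pool.Agent.Helper37.SU
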